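import Pool.Agent.Helper60.HB.Skel

set_option autoImplicit false

/-! # CJB: conjugates of sums of roots of elements of a number field -/

namespace Pool.Agent.Helper60.HB

theorem st_CJB : ST_CJB := by
  intro K _ _ σ ι s c w κ N V hN hV hw hκ z hz
  classical
  set F := algebraicClosure ℚ ℂ with hF
  have hσ : ∀ k : K, σ k ∈ F := by
    intro k
    rw [hF, mem_algebraicClosure_iff]
    obtain ⟨p, hp0, hp⟩ : IsAlgebraic ℚ k := Algebra.IsAlgebraic.isAlgebraic k
    refine ⟨p, hp0, ?_⟩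
    have h2 := Polynomial.aeval_algHom_apply σ.toRatAlgHom k p
    rw [hp, map_zero] at h2
    exact h2
  have hwF : ∀ i ∈ s, w i ∈ F := by
    intro i hi
    rw [hF, mem_algebraicClosure_iff]
    apply IsAlgebraic.of_pow hN
    rw [hw i hi]
    have := hσ (κ i)
    rw [hF, mem_algebraicClosure_iff] at this
    exact this
  set w' : ι → F := fun i => if h : i ∈ s then ⟨w i, hwF i h⟩ else 0 with hw'
  have hw1 : ∀ i ∈ s, ((w' i : F) : ℂ) = w i := by
    intro i hi
    simp only [hw', dif_pos hi]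
  set y : F := ∑ i ∈ s, (c i : F) * w' i with hy
  have hyC : (y : ℂ) = ∑ i ∈ s, (c i : ℂ) * w i := by
    rw [hy]
    have : ((∑ i ∈ s, (c i : F) * w' i : F) : ℂ) = algebraMap F ℂ (∑ i ∈ s, (c i : F) * w' i) :=
      rfl
    rw [this, map_sum]
    apply Finset.sum_congr rfl
    intro i hi
    rw [map_mul, map_intCast]
    congr 1
    exact hw1 i hi
  have hmin : minpoly ℚ (∑ i ∈ s, (c i : ℂ) * w i) = minpoly ℚ y := by
    rw [← hyC]
    exact minpoly.algebraMap_eq (algebraMap F ℂ).injective y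
  have : Algebra.IsAlgebraic ℚ F := by
    refine ⟨fun x => ?_⟩
    have h1 : IsAlgebraic ℚ (x : ℂ) := mem_algebraicClosure_iff.1 x.2
    exact (isAlgebraic_algebraMap_iff (algebraMap F ℂ).injective).1 h1
  have hroot : z ∈ (minpoly ℚ y).rootSet ℂ := by
    rw [Polynomial.mem_rootSet]
    refine ⟨minpoly.ne_zero (Algebra.IsIntegral.isIntegral y), ?_⟩
    rw [← hmin]
    exact hz
  rw [← Algebra.IsAlgebraic.range_eval_eq_rootSet_minpoly (A := ℂ) y] at hroot
  obtain ⟨τ, hτ⟩ := hroot
  simp only at hτ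
  set σ' : K →+* F := σ.codRestrict F hσ with hσ'
  have hbound : ∀ i ∈ s, ‖τ (w' i)‖ ≤ V := by
    intro i hi
    have h1 : ‖τ (w' i)‖ ^ N ≤ V ^ N := by
      rw [← norm_pow, ← map_pow]
      have h2 : w' i ^ N = σ' (κ i) := by
        apply Subtype.ext
        have : ((w' i ^ N : F) : ℂ) = ((w' i : F) : ℂ) ^ N := rfl
        rw [this, hw1 i hi, hw i hi]
        rfl
      rw [h2]
      exact hκ i hi ((τ : F →+* ℂ).comp σ')
    exact le_of_pow_le_pow_left₀ (by omega) hV h1
  rw [← hτ, hy, map_sum, Finset.sum_mul]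
  refine le_trans (norm_sum_le _ _) (Finset.sum_le_sum ?_)
  intro i hi
  rw [map_mul, map_intCast, norm_mul, Complex.norm_intCast]
  exact mul_le_mul_of_nonneg_left (hbound i hi) (abs_nonneg _)

end Pool.Agent.Helper60.HB
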