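import Pool.Agent.Helper60.HB.Skel

set_option autoImplicit false

/-! # HRM: Hermite interpolation with small data -/

open Polynomial

namespace Pool.Agent.Helper60.HB

/-- division by Q modulo X^τ preserves the bound δ of the first τ coefficients -/
def hrm_inv (τ : ℕ) (δ : ℝ) (Q : ℂ[X]) : Prop :=
  ∀ W : ℂ[X], (∀ k < τ, ‖W.coeff k‖ ≤ δ) →
    ∃ A : ℂ[X], (∀ k < τ, ‖A.coeff k‖ ≤ δ) ∧ X ^ τ ∣ A * Q - W

theorem hrm_inv_one (τ : ℕ) (δ : ℝ) : hrm_inv τ δ 1 := by
  intro W hW
  exact ⟨W, hW, by simp⟩

theorem hrm_inv_mul (τ : ℕ) (δ : ℝ) (P Q : ℂ[X]) (hP : hrm_inv τ δ P) (hQ : hrm_inv τ δ Q) :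
    hrm_inv τ δ (P * Q) := by
  intro W hW
  obtain ⟨A1, h1, h2⟩ := hQ W hW
  obtain ⟨A, h3, h4⟩ := hP A1 h1
  refine ⟨A, h3, ?_⟩
  have : A * (P * Q) - W = (A * P - A1) * Q + (A1 * Q - W) := by ring
  rw [this]
  exact dvd_add (Dvd.dvd.mul_right h4 Q) h2

noncomputable def hrm_seq (c : ℂ) (W : ℂ[X]) : ℕ → ℂ
  | 0 => W.coeff 0 / c
  | k + 1 => (W.coeff (k + 1) - hrm_seq c W k) / c

theorem hrm_inv_lin (τ : ℕ) (δ : ℝ) (c : ℂ) (hc : 2 ≤ ‖c‖) : hrm_inv τ δ (X + C c) := by
  intro W hW
  have hc0 : c ≠ 0 := by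
    intro h
    rw [h, norm_zero] at hc
    norm_num at hc
  have hb : ∀ k < τ, ‖hrm_seq c W k‖ ≤ δ := by
    intro k
    induction k with
    | zero =>
      intro hk
      have h0 := hW 0 hk
      have hδ : 0 ≤ δ := le_trans (norm_nonneg _) h0
      simp only [hrm_seq]
      rw [norm_div, div_le_iff₀ (by linarith)]
      nlinarith
    | succ k ih =>
      intro hk
      have h0 := hW (k + 1) hk
      have h1 := ih (by omega)
      have hδ : 0 ≤ δ := le_trans (norm_nonneg _) h0
      simp only [hrm_seq]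
      rw [norm_div, div_le_iff₀ (by linarith)]
      have := norm_sub_le (W.coeff (k + 1)) (hrm_seq c W k)
      nlinarith
  set A : ℂ[X] := ∑ k ∈ Finset.range τ, monomial k (hrm_seq c W k) with hA
  have hco : ∀ k, A.coeff k = if k < τ then hrm_seq c W k else 0 := by
    intro k
    rw [hA, finsetSum_coeff]
    simp only [coeff_monomial]
    rw [Finset.sum_ite_eq']
    simp
  refine ⟨A, ?_, ?_⟩
  · intro k hk
    rw [hco, if_pos hk]
    exact hb k hk
  · rw [X_pow_dvd_iff]
    intro d hd
    rw [coeff_sub, mul_add, coeff_add, coeff_mul_C]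
    cases d with
    | zero =>
      rw [coeff_mul_X_zero, hco, if_pos hd]
      simp only [hrm_seq]
      field_simp
      ring
    | succ d =>
      rw [coeff_mul_X, hco, hco, if_pos hd, if_pos (by omega)]
      simp only [hrm_seq]
      field_simp
      ring

theorem hrm_inv_pow (τ : ℕ) (δ : ℝ) (P : ℂ[X]) (hP : hrm_inv τ δ P) (n : ℕ) :
    hrm_inv τ δ (P ^ n) := by
  induction n with
  | zero => rw [pow_zero]; exact hrm_inv_one τ δ
  | succ n ih => rw [pow_succ]; exact hrm_inv_mul τ δ _ _ ih hP

theorem st_HRM : ST_HRM := by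
  intro X0 τ v δ hsp hδ hv
  classical
  set Q : ℤ → ℂ[X] := fun x => ∏ y ∈ X0.erase x, (X + C ((x : ℂ) - (y : ℂ))) ^ τ with hQ
  have hinv : ∀ x ∈ X0, hrm_inv τ δ (Q x) := by
    intro x hx
    rw [hQ]
    refine Finset.prod_induction _ (hrm_inv τ δ) (fun a b => hrm_inv_mul τ δ a b)
      (hrm_inv_one τ δ) ?_
    intro y hy
    apply hrm_inv_pow
    apply hrm_inv_lin
    have h2 := hsp x hx y (Finset.mem_of_mem_erase hy) (Finset.ne_of_mem_erase hy).symm
    have h3 : ((x : ℂ) - (y : ℂ)) = (((x - y : ℤ)) : ℂ) := by push_cast; ring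
    rw [h3, Complex.norm_intCast]
    exact_mod_cast h2
  have hex : ∀ x : ℤ, ∃ A : ℂ[X], x ∈ X0 → (∀ k < τ, ‖A.coeff k‖ ≤ δ) ∧
      (∀ k, τ ≤ k → A.coeff k = 0) ∧ ∀ k < τ, (A * Q x).coeff k = v x k := by
    intro x
    by_cases hx : x ∈ X0
    · set W : ℂ[X] := ∑ k ∈ Finset.range τ, monomial k (v x k) with hW
      have hco : ∀ k, W.coeff k = if k < τ then v x k else 0 := by
        intro k
        rw [hW, finsetSum_coeff]
        simp only [coeff_monomial]
        rw [Finset.sum_ite_eq']
        simp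
      obtain ⟨A, h1, h2⟩ := hinv x hx W (by
        intro k hk
        rw [hco, if_pos hk]
        exact hv x hx k hk)
      set B : ℂ[X] := ∑ k ∈ Finset.range τ, monomial k (A.coeff k) with hB
      have hcB : ∀ k, B.coeff k = if k < τ then A.coeff k else 0 := by
        intro k
        rw [hB, finsetSum_coeff]
        simp only [coeff_monomial]
        rw [Finset.sum_ite_eq']
        simp
      refine ⟨B, fun _ => ⟨?_, ?_, ?_⟩⟩
      · intro k hk
        rw [hcB, if_pos hk]
        exact h1 k hk
      · intro k hk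
        rw [hcB, if_neg (by omega)]
      · intro k hk
        have h3 : X ^ τ ∣ B - A := by
          rw [X_pow_dvd_iff]
          intro d hd
          rw [coeff_sub, hcB, if_pos hd, sub_self]
        have h4 : X ^ τ ∣ B * Q x - W := by
          have : B * Q x - W = (B - A) * Q x + (A * Q x - W) := by ring
          rw [this]
          exact dvd_add (Dvd.dvd.mul_right h3 _) h2
        rw [X_pow_dvd_iff] at h4
        have h5 := h4 k hk
        rw [coeff_sub, hco, if_pos hk, sub_eq_zero] at h5
        exact h5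
    · exact ⟨0, fun h => absurd h hx⟩
  choose A hA using hex
  refine ⟨∑ x ∈ X0, taylor (-(x : ℂ)) (A x * Q x), ?_, ?_⟩
  · intro x hx k hk
    rw [map_sum, finsetSum_coeff]
    rw [Finset.sum_eq_single x]
    · rw [taylor_taylor, add_neg_cancel, taylor_zero]
      exact (hA x hx).2.2 k hk
    · intro y hy hyx
      rw [taylor_taylor]
      have hmem : x ∈ X0.erase y := Finset.mem_erase.2 ⟨hyx.symm, hx⟩
      have hd : X ^ τ ∣ taylor ((x : ℂ) + -(y : ℂ)) (A y * Q y) := by
        rw [hQ]
        simp only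
        rw [← Finset.mul_prod_erase _ _ hmem, taylor_mul, taylor_mul, taylor_pow]
        have : taylor ((x : ℂ) + -(y : ℂ)) (X + C ((y : ℂ) - (x : ℂ))) = X := by
          rw [map_add, taylor_X, taylor_C, add_assoc, ← C_add]
          have : (x : ℂ) + -(y : ℂ) + ((y : ℂ) - x) = 0 := by ring
          rw [this, C_0, add_zero]
        rw [this]
        exact dvd_mul_of_dvd_right (dvd_mul_right _ _) _
      rw [X_pow_dvd_iff] at hd
      exact hd k hk
    · intro h
      exact absurd hx h
  · intro z R hR hz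
    rw [eval_finsetSum]
    refine le_trans (norm_sum_le _ _) ?_
    have hterm : ∀ x ∈ X0, ‖(taylor (-(x : ℂ)) (A x * Q x)).eval z‖ ≤
        τ * δ * R ^ (X0.card * τ) := by
      intro x hx
      rw [taylor_eval, eval_mul, norm_mul]
      have e1 : z + -(x : ℂ) = z - x := by ring
      rw [e1]
      have hR0 : 0 ≤ R := by linarith
      have hAx : ‖(A x).eval (z - x)‖ ≤ τ * δ * R ^ τ := by
        have hdeg : A x = ∑ k ∈ Finset.range τ, monomial k ((A x).coeff k) := by
          ext k
          rw [finsetSum_coeff]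
          simp only [coeff_monomial]
          rw [Finset.sum_ite_eq']
          by_cases hk : k < τ
          · simp [hk]
          · rw [if_neg (by simpa using hk)]
            exact (hA x hx).2.1 k (by omega)
        rw [hdeg, eval_finsetSum]
        refine le_trans (norm_sum_le _ _) ?_
        have : ∀ k ∈ Finset.range τ, ‖(monomial k ((A x).coeff k)).eval (z - x)‖ ≤ δ * R ^ τ := by
          intro k hk
          rw [Finset.mem_range] at hk
          rw [eval_monomial, norm_mul, norm_pow]
          have h1 := (hA x hx).1 k hk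
          have h2 : ‖z - x‖ ^ k ≤ R ^ τ :=
            le_trans (pow_le_pow_left₀ (norm_nonneg _) (hz x hx) k)
              (pow_le_pow_right₀ hR hk.le)
          exact mul_le_mul h1 h2 (by positivity) hδ
        refine le_trans (Finset.sum_le_sum this) ?_
        rw [Finset.sum_const, Finset.card_range, nsmul_eq_mul]
        exact le_of_eq (by ring)
      have hQx : ‖(Q x).eval (z - x)‖ ≤ R ^ ((X0.card - 1) * τ) := by
        rw [hQ]
        simp only
        rw [eval_prod, norm_prod]
        have : ∀ y ∈ X0.erase x, ‖((X + C ((x : ℂ) - (y : ℂ))) ^ τ).eval (z - x)‖ ≤ R ^ τ := by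
          intro y hy
          rw [eval_pow, eval_add, eval_X, eval_C, norm_pow]
          have e2 : z - (x : ℂ) + ((x : ℂ) - y) = z - y := by ring
          rw [e2]
          exact pow_le_pow_left₀ (norm_nonneg _) (hz y (Finset.mem_of_mem_erase hy)) τ
        refine le_trans (Finset.prod_le_prod (fun _ _ => norm_nonneg _) this) ?_
        rw [Finset.prod_const, Finset.card_erase_of_mem hx, ← pow_mul, mul_comm τ]
      refine le_trans (mul_le_mul hAx hQx (norm_nonneg _) (by positivity)) ?_
      have hcard : 1 ≤ X0.card := Finset.card_pos.2 ⟨x, hx⟩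
      have : τ + (X0.card - 1) * τ = X0.card * τ := by
        obtain ⟨m, hm⟩ : ∃ m, X0.card = m + 1 := ⟨X0.card - 1, by omega⟩
        rw [hm, Nat.add_sub_cancel]
        ring
      rw [mul_assoc, ← pow_add, this]
    refine le_trans (Finset.sum_le_sum hterm) ?_
    rw [Finset.sum_const, nsmul_eq_mul]
    exact le_of_eq (by ring)

end Pool.Agent.Helper60.HB
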